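import Pool.Agent.Y522.FA.Stm

/-!
# Project FA (filling area), FA-Jac: the density of `dF ∧ dg`
-/

set_option autoImplicit false

open Set Filter Topology Metric Function MeasureTheory
open scoped Manifold ContDiff Real NNReal

noncomputable section

namespace Pool.Agent.Y430.FA

open Pool.Agent.Y522.FA

theorem det_eq (L : E2 →L[ℝ] E2) : L.det = L (bv 0) 0 * L (bv 1) 1 - L (bv 1) 0 * L (bv 0) 1 := by
  have h := LinearMap.det_toMatrix (EuclideanSpace.basisFun (Fin 2) ℝ).toBasis (L : E2 →ₗ[ℝ] E2)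
  rw [ContinuousLinearMap.det, ← h, Matrix.det_fin_two]
  simp [LinearMap.toMatrix_apply, bv]

theorem bv_repr (v : E2) : v = v 0 • bv 0 + v 1 • bv 1 := by
  ext i; fin_cases i <;> simp [bv]

theorem cr_comp (P Q : E2 →L[ℝ] ℝ) (L : E2 →L[ℝ] E2) :
    cr (P.comp L) (Q.comp L) = L.det * cr P Q := by
  have h : ∀ (R : E2 →L[ℝ] ℝ) (v : E2), R v = v 0 * R (bv 0) + v 1 * R (bv 1) := by
    intro R v
    conv_lhs => rw [bv_repr v]
    rw [map_add, map_smul, map_smul, smul_eq_mul, smul_eq_mul]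
  unfold cr
  rw [det_eq]
  simp only [ContinuousLinearMap.comp_apply]
  rw [h P (L (bv 0)), h P (L (bv 1)), h Q (L (bv 0)), h Q (L (bv 1))]
  ring

theorem norm_sq_two (a b : ℝ) : ‖a • bv 0 + b • bv 1‖ ^ 2 = a ^ 2 + b ^ 2 := by
  rw [EuclideanSpace.norm_sq_eq]
  simp [bv, Fin.sum_univ_two]

theorem coord_le (p : E2 →L[ℝ] ℝ) (K : ℝ) (hK : 0 ≤ K) (hp : ∀ w, |p w| ≤ K * ‖w‖) :
    p (bv 0) ^ 2 + p (bv 1) ^ 2 ≤ K ^ 2 := by
  have h1 := hp (p (bv 0) • bv 0 + p (bv 1) • bv 1)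
  have h2 : p (p (bv 0) • bv 0 + p (bv 1) • bv 1) = p (bv 0) ^ 2 + p (bv 1) ^ 2 := by
    rw [map_add, map_smul, map_smul, smul_eq_mul, smul_eq_mul]; ring
  have h3 := norm_sq_two (p (bv 0)) (p (bv 1))
  set n := ‖p (bv 0) • bv 0 + p (bv 1) • bv 1‖ with hn
  have hn0 : 0 ≤ n := norm_nonneg _
  rw [h2, ← h3, abs_of_nonneg (by positivity)] at h1
  rw [← h3]
  by_cases h : n = 0
  · rw [h]; nlinarith [sq_nonneg K]
  · have h4 : 0 < n := lt_of_le_of_ne hn0 (Ne.symm h)
    have h5 : n ≤ K := by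
      by_contra hlt
      push Not at hlt
      nlinarith
    nlinarith

theorem cr_le (P Q : E2 →L[ℝ] ℝ) (A : E2 →L[ℝ] E2) (hA : 0 < A.det) (K K' : ℝ) (hK : 0 ≤ K)
    (hK' : 0 ≤ K') (hP : ∀ v, |P v| ≤ K * ‖A v‖) (hQ : ∀ v, |Q v| ≤ K' * ‖A v‖) :
    |cr P Q / A.det| ≤ K * K' := by
  set e := A.toContinuousLinearEquivOfDetNeZero hA.ne' with he
  have hee : ∀ v, e v = A v := fun v => rfl
  set p := P.comp (e.symm : E2 →L[ℝ] E2) with hp
  set q := Q.comp (e.symm : E2 →L[ℝ] E2) with hq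
  have hPp : P = p.comp A := by
    ext v
    simp only [hp, ContinuousLinearMap.comp_apply, ContinuousLinearEquiv.coe_coe, ← hee,
      ContinuousLinearEquiv.symm_apply_apply]
  have hQq : Q = q.comp A := by
    ext v
    simp only [hq, ContinuousLinearMap.comp_apply, ContinuousLinearEquiv.coe_coe, ← hee,
      ContinuousLinearEquiv.symm_apply_apply]
  have hp1 : ∀ w, |p w| ≤ K * ‖w‖ := by
    intro w
    have := hP (e.symm w)
    rwa [← hee, ContinuousLinearEquiv.apply_symm_apply] at this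
  have hq1 : ∀ w, |q w| ≤ K' * ‖w‖ := by
    intro w
    have := hQ (e.symm w)
    rwa [← hee, ContinuousLinearEquiv.apply_symm_apply] at this
  have h1 : cr P Q / A.det = cr p q := by
    rw [hPp, hQq, cr_comp, mul_div_cancel_left₀ _ hA.ne']
  rw [h1]
  have h2 := coord_le p K hK hp1
  have h3 := coord_le q K' hK' hq1
  refine abs_le_of_sq_le_sq ?_ (by positivity)
  unfold cr
  have h4 : (p (bv 0) * q (bv 1) - p (bv 1) * q (bv 0)) ^ 2 ≤
      (p (bv 0) ^ 2 + p (bv 1) ^ 2) * (q (bv 0) ^ 2 + q (bv 1) ^ 2) := by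
    nlinarith [sq_nonneg (p (bv 0) * q (bv 0) + p (bv 1) * q (bv 1))]
  calc (p (bv 0) * q (bv 1) - p (bv 1) * q (bv 0)) ^ 2 ≤
      (p (bv 0) ^ 2 + p (bv 1) ^ 2) * (q (bv 0) ^ 2 + q (bv 1) ^ 2) := h4
    _ ≤ K ^ 2 * K' ^ 2 := by gcongr
    _ = (K * K') ^ 2 := by ring

section surf

variable {M : Type} [MetricSpace M] [MeasurableSpace M] {μ : Measure M} {b : Circ → M}

/-- a neighbourhood of an interior point lies in the image of the chart -/
theorem T_nhds (S : Surf M μ b) (i : Fin S.N) (x : M) (hx : x ∈ S.U i) (h0 : 0 < (S.φ i x) 0) :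
    S.φ i '' S.U i ∈ 𝓝 (S.φ i x) := by
  obtain ⟨O, hO, hT⟩ := S.openT i
  have hmem : S.φ i x ∈ S.φ i '' S.U i := mem_image_of_mem _ hx
  rw [hT] at hmem ⊢
  have h1 : O ∈ 𝓝 (S.φ i x) := hO.mem_nhds hmem.1
  have h2 : {z : E2 | 0 < z 0} ∈ 𝓝 (S.φ i x) := by
    refine IsOpen.mem_nhds ?_ h0
    exact isOpen_lt continuous_const (by fun_prop)
  filter_upwards [h1, h2] with z hz1 hz2
  exact ⟨hz1, le_of_lt hz2⟩

theorem dc_eq (S : Surf M μ b) (F : M → ℝ) (x : M) (hF : S.Dif F x) (i j : Fin S.N)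
    (hi : x ∈ S.U i) (hj : x ∈ S.U j) (L : E2 →L[ℝ] E2)
    (hL : HasFDerivAt (fun z => S.φ j (S.ψ i z)) L (S.φ i x)) :
    S.dc i F x = (S.dc j F x).comp L := by
  have h0 := (hF i hi).1
  have hn := T_nhds S i x hi h0
  have hc : ContinuousAt (S.ψ i) (S.φ i x) := (S.contψ i).continuousAt hn
  have hev : ∀ᶠ z in 𝓝 (S.φ i x), S.ψ i z ∈ S.U j := by
    refine hc.eventually_mem ?_
    rw [S.left i x hi]
    exact (S.openU j).mem_nhds hj
  have hd : HasFDerivAt (fun z => F (S.ψ j z)) (S.dc j F x) (S.φ j x) :=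
    (hF j hj).2.hasFDerivAt
  have hcomp : HasFDerivAt ((fun z => F (S.ψ j z)) ∘ (fun z => S.φ j (S.ψ i z)))
      ((S.dc j F x).comp L) (S.φ i x) := by
    refine HasFDerivAt.comp (S.φ i x) ?_ hL
    show HasFDerivAt (fun z => F (S.ψ j z)) (S.dc j F x) (S.φ j (S.ψ i (S.φ i x)))
    rw [S.left i x hi]
    exact hd
  have hfin : HasFDerivAt (fun z => F (S.ψ i z)) ((S.dc j F x).comp L) (S.φ i x) := by
    refine hcomp.congr_of_eventuallyEq ?_
    filter_upwards [hev] with z hz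
    simp only [comp_apply]
    rw [S.left j _ hz]
  exact hfin.fderiv

theorem quot_eq (S : Surf M μ b) (F g : M → ℝ) (x : M) (hF : S.Dif F x) (hg : S.Dif g x)
    (i j : Fin S.N) (hi : x ∈ S.U i) (hj : x ∈ S.U j) :
    cr (S.dc i F x) (S.dc i g x) / (S.A i (S.φ i x)).det =
      cr (S.dc j F x) (S.dc j g x) / (S.A j (S.φ j x)).det := by
  obtain ⟨L, hL, hdet⟩ := S.tr i j x hi hj (hF i hi).1
  have hAi := S.detA i _ (mem_image_of_mem (S.φ i) hi)
  have hAj := S.detA j _ (mem_image_of_mem (S.φ j) hj)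
  have hLd : L.det ≠ 0 := by
    intro h
    rw [h, mul_zero] at hdet
    exact hAi.ne' hdet
  rw [dc_eq S F x hF i j hi hj L hL, dc_eq S g x hg i j hi hj L hL, cr_comp, hdet,
    mul_comm (S.A j (S.φ j x)).det L.det, mul_div_mul_left _ _ hLd]

theorem exists_pc (S : Surf M μ b) (x : M) : ∃ i, x ∈ S.pc i := by
  classical
  have hne : (Finset.univ.filter fun i => x ∈ S.U i).Nonempty := by
    obtain ⟨i, hi⟩ := S.cover x
    exact ⟨i, by simpa using hi⟩
  refine ⟨(Finset.univ.filter fun i => x ∈ S.U i).min' hne, ?_, ?_⟩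
  · have := Finset.min'_mem _ hne
    simpa using (Finset.mem_filter.1 this).2
  · rw [mem_iUnion]
    rintro ⟨⟨k, hk⟩, hxk⟩
    have := Finset.min'_le (Finset.univ.filter fun i => x ∈ S.U i) k
      (Finset.mem_filter.2 ⟨Finset.mem_univ _, hxk⟩)
    exact absurd hk (not_lt.2 this)

theorem pc_unique (S : Surf M μ b) (x : M) (i j : Fin S.N) (hi : x ∈ S.pc i) (hj : x ∈ S.pc j) :
    i = j := by
  rcases lt_trichotomy i j with h | h | h
  · exact absurd (mem_iUnion.2 ⟨⟨i, h⟩, hi.1⟩) hj.2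
  · exact h
  · exact absurd (mem_iUnion.2 ⟨⟨j, h⟩, hj.1⟩) hi.2

theorem jac_eq_pc (S : Surf M μ b) (F g : M → ℝ) (x : M) (i : Fin S.N) (hi : x ∈ S.pc i) :
    S.jac F g x = cr (S.dc i F x) (S.dc i g x) / (S.A i (S.φ i x)).det := by
  unfold Surf.jac
  rw [Finset.sum_eq_single i]
  · rw [indicator_of_mem hi]
  · intro j _ hj
    rw [indicator_of_notMem]
    intro h
    exact hj (pc_unique S x j i h hi)
  · intro h
    exact absurd (Finset.mem_univ i) h

theorem measurableSet_pc [BorelSpace M] (S : Surf M μ b) (i : Fin S.N) :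
    MeasurableSet (S.pc i) :=
  (S.openU i).measurableSet.diff (MeasurableSet.iUnion fun k => (S.openU k.1).measurableSet)

theorem aem_quot [BorelSpace M] (S : Surf M μ b) (F g : M → ℝ) (i : Fin S.N) :
    AEMeasurable (fun x => cr (S.dc i F x) (S.dc i g x) / (S.A i (S.φ i x)).det)
      (μ.restrict (S.U i)) := by
  have hφ : AEMeasurable (S.φ i) (μ.restrict (S.U i)) :=
    (S.contφ i).aemeasurable (S.openU i).measurableSet
  have hm : ∀ (G : M → ℝ) (v : E2), AEMeasurable (fun x => S.dc i G x v) (μ.restrict (S.U i)) := by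
    intro G v
    have h1 : Measurable fun z : E2 => fderiv ℝ (fun z => G (S.ψ i z)) z v :=
      measurable_fderiv_apply_const ℝ (fun z => G (S.ψ i z)) v
    exact h1.comp_aemeasurable hφ
  have hd : AEMeasurable (fun x => (S.A i (S.φ i x)).det) (μ.restrict (S.U i)) := by
    have h1 : ContinuousOn (fun x => (S.A i (S.φ i x)).det) (S.U i) :=
      ContinuousLinearMap.continuous_det.comp_continuousOn
        ((S.contA i).comp (S.contφ i) (mapsTo_image _ _))
    exact h1.aemeasurable (S.openU i).measurableSet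
  unfold cr
  exact (((hm F _).mul (hm g _)).sub ((hm F _).mul (hm g _))).div hd

end surf

theorem stJac (hL : StLip) (hR : StRad) (hF : StFin) : StJac := by
  intro M _ _ _ _ μ b S F g K K' hFK hgK
  have h1 : ∀ x, S.Dif F x → S.Dif g x → ∀ i, x ∈ S.U i →
      S.jac F g x = cr (S.dc i F x) (S.dc i g x) / (S.A i (S.φ i x)).det := by
    intro x hFx hgx i hi
    obtain ⟨j, hj⟩ := exists_pc S x
    rw [jac_eq_pc S F g x j hj]
    exact quot_eq S F g x hFx hgx j i hj.1 hi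
  refine ⟨h1, ?_⟩
  have : IsFiniteMeasure μ := hF M μ b S
  have hmeas : AEStronglyMeasurable (S.jac F g) μ := by
    have : S.jac F g = fun x => ∑ i, (S.pc i).indicator
        (fun x => cr (S.dc i F x) (S.dc i g x) / (S.A i (S.φ i x)).det) x := rfl
    rw [this]
    refine Finset.aestronglyMeasurable_fun_sum _ fun i _ => ?_
    rw [aestronglyMeasurable_indicator_iff (measurableSet_pc S i)]
    exact ((aem_quot S F g i).mono_set sdiff_subset).aestronglyMeasurable
  refine Integrable.of_bound hmeas (K * K' : ℝ) ?_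
  filter_upwards [hR M μ b S F K hFK, hR M μ b S g K' hgK] with x hFx hgx
  obtain ⟨i, hi⟩ := exists_pc S x
  rw [jac_eq_pc S F g x i hi, Real.norm_eq_abs]
  exact cr_le _ _ _ (S.detA i _ (mem_image_of_mem (S.φ i) hi.1)) K K' K.2 K'.2
    (fun v => (hL M μ b S F K hFK).2 x hFx i hi.1 v)
    (fun v => (hL M μ b S g K' hgK).2 x hgx i hi.1 v)

end Pool.Agent.Y430.FA
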